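import Pool.Agent.Y130.GS.Main
import Pool.Agent.Y126.Notions
import Pool.Agent.TH118.WC.X
import Pool.Agent.TH118.CR.Nil

/-!
# Galois special points: square-zero elements of rank one
-/

set_option linter.unusedSectionVars false

open Module Finset Function

namespace Pool.Agent.Y126.GSP

open Pool.Agent.Y130 Pool.Agent.Y130.GS Pool.Agent.H204R3.GP Pool.Agent.H204R3.SP
open Pool.Agent.W522.U Pool.Agent.TH118.WC Pool.Agent.TH118.CR

variable {K : Type} [Field K] {X : Type} [AddCommGroup X] [Module K X]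
  {Γ : Type} [Group Γ] {G : Type} [Group G]

/-- A subgroup of finite index acts on the tensor product of the determinants of the spaces `L q`
through the power of `χ` whose exponent is half of the sum of the dimensions. -/
def DeterminantIsPower (R : Representation K Γ X) (χ : Γ →* K) {Q : Type} [Fintype Q]
    (L : Q → Submodule K X) : Prop :=
  ∃ (c : ℕ) (Δ : Subgroup Γ) (h : ∀ q, ∀ g ∈ Δ, ∀ u ∈ L q, R g u ∈ L q), Δ.FiniteIndex ∧
    2 * c = ∑ q, finrank K (L q) ∧
    ∀ (g : Γ) (hg : g ∈ Δ), ∏ q, LinearMap.det ((R g).restrict (h q g hg)) = χ g ^ c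

/-- The Tate forms are a subspace. -/
def tateForms (R : Representation K Γ X) (χ : Γ →* K) (S : Type) (m : ℕ) :
    Submodule K (MultilinearMap K (fun _ : S => X) K) where
  carrier := {φ | Pool.Agent.Y130.GS.IsTateForm R χ m φ}
  zero_mem' := ⟨⊤, inferInstance, fun t _ v => by simp⟩
  add_mem' := by
    rintro a b ⟨Δ₁, h1, h1'⟩ ⟨Δ₂, h2, h2'⟩
    refine ⟨Δ₁ ⊓ Δ₂, inferInstance, fun t ht v => ?_⟩
    have h3 := h1' t ht.1 v
    have h4 := h2' t ht.2 v
    rw [MultilinearMap.add_apply, MultilinearMap.add_apply, h3, h4, mul_add]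
  smul_mem' := by
    rintro c a ⟨Δ₁, h1, h1'⟩
    refine ⟨Δ₁, h1, fun t ht v => ?_⟩
    rw [MultilinearMap.smul_apply, MultilinearMap.smul_apply, h1' t ht v, smul_eq_mul,
      smul_eq_mul, mul_left_comm]

/-- one determinant -/
theorem det_one {R' : Representation K G X} {χ' : G →* K} {U : Submodule K X}
    [FiniteDimensional K U] (f : Basis (Fin (finrank K U)) K U)
    (C : Fin (finrank K U) → X →ₗ[K] X →ₗ[K] K) {t : G}
    (hC : ∀ s x y, C s (R' t x) (R' t y) = χ' t * C s x y)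
    (hU : ∀ u ∈ U, R' t⁻¹ u ∈ U) (v : Fin (finrank K U) → X) :
    Matrix.det (Matrix.of fun s s' => C s (R' t (v s)) (f s' : X)) =
      χ' t ^ finrank K U * Matrix.det (Matrix.of fun s s' => C s (v s) (f s' : X)) *
        LinearMap.det ((R' t⁻¹).restrict hU) := by
  classical
  have h1 : (Matrix.of fun s s' => C s (R' t (v s)) (f s' : X)) =
      χ' t • ((Matrix.of fun s s' => C s (v s) (f s' : X)) *
        LinearMap.toMatrix f f ((R' t⁻¹).restrict hU)) := by
    ext s s'
    rw [Matrix.smul_apply, Matrix.mul_apply, Matrix.of_apply, smul_eq_mul]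
    have h2 : ∑ j, (Matrix.of fun s s' => C s (v s) (f s' : X)) s j *
        (LinearMap.toMatrix f f ((R' t⁻¹).restrict hU)) j s' = C s (v s) (R' t⁻¹ (f s' : X)) := by
      have h3 : (R' t⁻¹ (f s' : X)) =
          ∑ j, (LinearMap.toMatrix f f ((R' t⁻¹).restrict hU)) j s' • (f j : X) := by
        have h4 := f.sum_repr ((R' t⁻¹).restrict hU (f s'))
        have h5 := congrArg (fun u : U => (u : X)) h4
        simp only [Submodule.coe_sum, Submodule.coe_smul, LinearMap.restrict_coe_apply] at h5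
        rw [← h5]
        refine Finset.sum_congr rfl fun j _ => ?_
        rw [LinearMap.toMatrix_apply]
      rw [h3, map_sum]
      refine Finset.sum_congr rfl fun j _ => ?_
      rw [Matrix.of_apply, map_smul, smul_eq_mul, mul_comm]
    rw [h2, ← hC]
    congr 1
    rw [← Module.End.mul_apply, ← map_mul, mul_inv_cancel, map_one, Module.End.one_apply]
  rw [h1, Matrix.det_smul, Matrix.det_mul, Fintype.card_fin, LinearMap.det_toMatrix]
  ring

variable {τ : Representation K Γ X} {χ : Γ →* K} {R' : Representation K G X} {χ' : G →* K}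

/-- Products of bilinear Tate forms and determinants are Tate forms for the family. -/
theorem detProd_tate [FiniteDimensional K X]
    (h2 : ∀ β : X →ₗ[K] X →ₗ[K] K, IsTate2 τ χ β → IsTate2 R' χ' β)
    (hW : ∀ (Q : Type) [Fintype Q] (L : Q → Submodule K X),
      Pool.Agent.Y126.Notions.IsWeilFamily τ χ L → DeterminantIsPower R' χ' L)
    {m : ℕ} {φ : MultilinearMap K (fun _ : Fin m × Fin 2 => X) K} (hφ : φ ∈ DetProd τ χ m) :
    Pool.Agent.Y130.GS.IsTateForm R' χ' m φ := by
  classical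
  obtain ⟨P, Q, _, _, U, f, e, B, C, hB, hC, hU, hDu, hdet, hφ⟩ := hφ
  obtain ⟨c, Δ₀, h, hΔ₀, hc, hdet'⟩ := hW Q U ⟨hU, hDu, hdet⟩
  choose ΔB hΔB hB' using fun p => h2 _ (hB p)
  choose ΔC hΔC hC' using fun q s => h2 _ (hC q s)
  have i1 : (⨅ p, ΔB p).FiniteIndex := Subgroup.finiteIndex_iInf hΔB
  have i2 : (⨅ q, ⨅ s, ΔC q s).FiniteIndex :=
    Subgroup.finiteIndex_iInf fun q => Subgroup.finiteIndex_iInf (hΔC q)
  refine ⟨Δ₀ ⊓ ((⨅ p, ΔB p) ⊓ ⨅ q, ⨅ s, ΔC q s), inferInstance, fun t ht v => ?_⟩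
  have ht0 : t⁻¹ ∈ Δ₀ := Δ₀.inv_mem ht.1
  have htB : ∀ p, t ∈ ΔB p := Subgroup.mem_iInf.1 ht.2.1
  have htC : ∀ q s, t ∈ ΔC q s := fun q => Subgroup.mem_iInf.1 (Subgroup.mem_iInf.1 ht.2.2 q)
  have hcard : Fintype.card P + c = m := by
    have h1 := Fintype.card_congr e
    rw [Fintype.card_sum, Fintype.card_sigma, Fintype.card_prod, Fintype.card_prod,
      Fintype.card_fin, Fintype.card_fin] at h1
    simp only [Fintype.card_fin] at h1
    omega
  rw [hφ, hφ]
  rw [Finset.prod_congr rfl fun p _ => hB' p t (htB p) _ _,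
    Finset.prod_congr rfl fun q _ => det_one (f q) (C q)
      (fun s x y => hC' q s t (htC q s) x y) (h q t⁻¹ ht0) (fun s => v (e (Sum.inr ⟨q, s⟩))),
    Finset.prod_mul_distrib, Finset.prod_mul_distrib, Finset.prod_mul_distrib, hdet' t⁻¹ ht0,
    Finset.prod_const, Finset.prod_pow_eq_pow_sum, ← hc, Finset.card_univ]
  have h6 : χ' t ^ m = χ' t ^ Fintype.card P * χ' t ^ c := by rw [← pow_add, hcard]
  rw [h6]
  have h3 : χ' t * χ' t⁻¹ = 1 := by rw [← map_mul, mul_inv_cancel, map_one]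
  have h4 : χ' t ^ (2 * c) * χ' t⁻¹ ^ c = χ' t ^ c := by
    rw [two_mul, pow_add, mul_assoc, ← mul_pow, h3, one_pow, mul_one]
  rw [← h4]
  ring

/-- The action contains a homothety which is not a root of unity. -/
def HasHomothety (τ : Representation K Γ X) (χ : Γ →* K) : Prop :=
  ∃ (s : Γ) (c : K), (∀ x, τ s x = c • x) ∧ χ s = c ^ 2 ∧ ∀ n : ℕ, 0 < n → c ^ n ≠ 1

/-- The weights. -/
theorem card_of_homothety (hh : HasHomothety τ χ) {S : Type} [Fintype S] {m : ℕ}
    {φ : MultilinearMap K (fun _ : S => X) K} (hφ : Pool.Agent.Y130.GS.IsTateForm τ χ m φ)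
    (h0 : φ ≠ 0) : Fintype.card S = m * 2 := by
  obtain ⟨s, c, hs, hχ, hc⟩ := hh
  obtain ⟨Δ, hΔ, h⟩ := hφ
  obtain ⟨N, hN, hsN⟩ := Subgroup.exists_pow_mem_of_index_ne_zero hΔ.index_ne_zero s
  obtain ⟨v, hv⟩ : ∃ v, φ v ≠ 0 := by
    by_contra hcon
    push Not at hcon
    exact h0 (MultilinearMap.ext hcon)
  have h1 : ∀ x, τ (s ^ N) x = c ^ N • x := by
    intro x
    clear hsN
    have h2 : ∀ M : ℕ, τ (s ^ M) x = c ^ M • x := by
      intro M
      induction M with
      | zero => simp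
      | succ M ih =>
        rw [pow_succ', map_mul, Module.End.mul_apply, ih, map_smul, hs, smul_smul, ← pow_succ]
    exact h2 N
  have h2 := h _ hsN.2 v
  simp only [h1] at h2
  rw [φ.map_smul_univ, Finset.prod_const, Finset.card_univ, map_pow, hχ, smul_eq_mul] at h2
  have h3 := mul_right_cancel₀ hv h2
  rw [← pow_mul, ← pow_mul, ← pow_mul] at h3
  have hc0 : c ≠ 0 := by
    rintro rfl
    have h4 : χ s = 0 := by rw [hχ]; ring
    have h5 : χ s * χ s⁻¹ = 1 := by rw [← map_mul, mul_inv_cancel, map_one]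
    rw [h4, zero_mul] at h5
    exact zero_ne_one h5
  have h6 : ∀ a b : ℕ, c ^ a = c ^ b → a = b := by
    intro a b hab
    rcases lt_trichotomy a b with hlt | heq | hlt
    · exfalso
      apply hc (b - a) (by omega)
      have h7 : c ^ b = c ^ a * c ^ (b - a) := by rw [← pow_add]; congr 1; omega
      rw [h7] at hab
      exact (mul_right_cancel₀ (pow_ne_zero a hc0) (by rw [one_mul, mul_comm]; exact hab)).symm
    · exact heq
    · exfalso
      apply hc (a - b) (by omega)
      have h7 : c ^ a = c ^ b * c ^ (a - b) := by rw [← pow_add]; congr 1; omega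
      rw [h7] at hab
      exact mul_right_cancel₀ (pow_ne_zero b hc0) (by rw [one_mul, mul_comm]; exact hab)
  have h7 := h6 _ _ h3
  have hN' : 0 < N := hN.bot_lt
  have h8 : N * Fintype.card S = N * (m * 2) := by
    rw [h7]
    ring
  exact Nat.eq_of_mul_eq_mul_left hN' h8

/-- **The Tate forms at the point are Tate forms for the family.** -/
theorem transfer [FiniteDimensional K X] (hh : HasHomothety τ χ)
    (hdet : ∀ (m : ℕ) (φ : MultilinearMap K (fun _ : Fin m × Fin 2 => X) K), IsTate τ χ m φ →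
      φ ∈ Submodule.span K (DetProd τ χ m))
    (h2 : ∀ β : X →ₗ[K] X →ₗ[K] K, IsTate2 τ χ β → IsTate2 R' χ' β)
    (hW : ∀ (Q : Type) [Fintype Q] (L : Q → Submodule K X),
      Pool.Agent.Y126.Notions.IsWeilFamily τ χ L → DeterminantIsPower R' χ' L)
    {S : Type} [Fintype S] {m : ℕ} {φ : MultilinearMap K (fun _ : S => X) K}
    (hφ : Pool.Agent.Y130.GS.IsTateForm τ χ m φ) : Pool.Agent.Y130.GS.IsTateForm R' χ' m φ := by
  classical
  by_cases h0 : φ = 0
  · rw [h0]
    exact (tateForms R' χ' S m).zero_mem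
  have hcard := card_of_homothety hh hφ h0
  let e : S ≃ Fin m × Fin 2 := Fintype.equivOfCardEq (by simp [hcard])
  let ψ : MultilinearMap K (fun _ : Fin m × Fin 2 => X) K := φ.domDomCongr e
  have hψ : ∀ v, ψ v = φ (fun i => v (e i)) := fun v => rfl
  have h1 : IsTate τ χ m ψ := by
    obtain ⟨Δ, hΔ, h⟩ := hφ
    exact ⟨Δ, hΔ, fun s hs v => h s hs _⟩
  have h3 : ψ ∈ tateForms R' χ' (Fin m × Fin 2) m :=
    Submodule.span_le.2 (fun φ' hφ' => detProd_tate h2 hW hφ') (hdet m ψ h1)
  obtain ⟨Δ, hΔ, h⟩ := h3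
  refine ⟨Δ, hΔ, fun t ht v => ?_⟩
  have h4 := h t ht (fun i => v (e.symm i))
  rw [hψ, hψ] at h4
  simpa using h4

variable [CharZero K] [IsAlgClosed K] [FiniteDimensional K X]

theorem hasProj_of (h : Pool.Agent.Y126.Notions.PotentiallySemisimple τ) : HasProj τ := by
  intro Δ hΔ U hU
  obtain ⟨U', hU', hc⟩ := h Δ hΔ U hU
  refine ⟨Submodule.projection U U' hc, fun v => Submodule.projection_apply_mem hc v,
    fun u hu => Submodule.projection_apply_of_mem_left hc hu, fun s hs v => ?_⟩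
  obtain ⟨a, ha, b, hb, rfl⟩ := Submodule.mem_sup.1 (show v ∈ U ⊔ U' by rw [hc.sup_eq_top]; trivial)
  rw [map_add, map_add, map_add, Submodule.projection_apply_of_mem_left hc ha,
    Submodule.projection_apply_of_mem_left hc (hU s hs a ha),
    Submodule.projection_apply_of_mem_right hc hb,
    Submodule.projection_apply_of_mem_right hc (hU' s hs b hb), add_zero, add_zero]

/-- The groups of the point and of the families are the same. -/
theorem monodromy_eq (ω : X →ₗ[K] X →ₗ[K] K) (hnd : ∀ x, (∀ y, ω x y = 0) → x = 0)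
    (hω : ∀ s x y, ω (τ s x) (τ s y) = χ s * ω x y) (hss : TensorSemisimple τ)
    (hproj : HasProj τ) (hh : HasHomothety τ χ)
    (h1 : ∀ U, Pool.Agent.Y126.Notions.StronglyIrreducible τ U → 2 ≤ finrank K U →
      ∃ e ∈ lieT τ χ, e * e = 0 ∧ finrank K (U.map e) = 1)
    (hlines : Pool.Agent.Y126.Notions.NoSelfDualLines τ χ)
    (htwists : Pool.Agent.Y126.Notions.NoProperTwists τ χ)
    (Y : Subvariety τ χ)
    (h2 : ∀ β : X →ₗ[K] X →ₗ[K] K, IsTate2 τ χ β → IsTate2 Y.rep Y.mult β)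
    (hW : ∀ (Q : Type) [Fintype Q] (L : Q → Submodule K X),
      Pool.Agent.Y126.Notions.IsWeilFamily τ χ L → DeterminantIsPower Y.rep Y.mult L) :
    monodromy Y.rep = monodromy τ :=
  Set.Subset.antisymm
    (monodromy_le ω hnd hω hss fun _ _ _ _ hφ => transfer hh
      (fun m φ hφ => nil_det ω hnd hω h1 hproj hlines htwists φ hφ) h2 hW hφ) (monodromy_ge Y)

end Pool.Agent.Y126.GSP
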